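import Pool.Agent.H85.LU.Z2Map
import Pool.Agent.H99.LU.CDefs

/-!
# Facts about the 17-vertex Moore complex: graph, dimension, the cycle modulo 3
-/

set_option autoImplicit false

open scoped BigOperators

namespace Pool.LU.Z2

/-- the graph of the complex -/
def adjL (x y : Fin 17) : Prop := adjB x y = true

instance : DecidableRel adjL := fun x y => inferInstanceAs (Decidable (adjB x y = true))

theorem adjL_symm : ∀ x y, adjL x y → adjL y x := by decide +kernel

theorem adjL_irrefl : ∀ x, ¬ adjL x x := by decide +kernel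

theorem adjL_dim : ∀ σ : Finset (Fin 17), Pool.LU.Clq adjL σ → σ.card ≤ 3 := by
  intro σ h
  have : σ.card ≤ (Finset.range 3).card := by
    refine Finset.card_le_card_of_injOn (fun v => colour v) (fun v _ => ?_) ?_
    · rcases colour_lt v with h | h | h <;> simp [h]
    · intro v hv w hw hvw
      by_contra hne
      exact adj_colour v w (h v hv w hw hne) hvw
  simpa using this

/-- the vertex set of the triangle number `i` -/
def T (i : Fin 36) : Finset (Fin 17) :=
  {Fin.ofNat 17 (tri i 0), Fin.ofNat 17 (tri i 1), Fin.ofNat 17 (tri i 2)}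

/-- the coefficients of the cycle -/
def zc (i : Fin 36) : ZMod 3 :=
  (([1, 1, 1, 2, 1, 1, 1, 2, 1, 1, 1, 2, 2, 1, 2, 1, 2, 1, 2, 1, 2, 1, 2, 1, 2, 1, 2, 1, 2, 1,
    2, 1, 2, 1, 2, 1] : List ℕ).getD i 0 : ℕ)

/-- the cycle modulo 3 -/
def z (σ : Finset (Fin 17)) (_ : Unit) : ZMod 3 := ∑ i : Fin 36, if σ = T i then zc i else 0

theorem T_card : ∀ i, (T i).card = 3 := by decide +kernel

theorem T_clq : ∀ i, ∀ u ∈ T i, ∀ v ∈ T i, u ≠ v → adjL u v := by decide +kernel

theorem T_inj : ∀ i j, T i = T j → i = j := by decide +kernel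

theorem z_T (i : Fin 36) : z (T i) () = zc i := by
  unfold z
  rw [Finset.sum_eq_single i]
  · simp
  · intro j _ hj
    rw [if_neg fun h => hj (T_inj _ _ h).symm]
  · intro h; exact absurd (Finset.mem_univ _) h

theorem z_ne : z ≠ 0 := by
  intro h
  have h1 : z (T 0) () = 0 := by rw [h]; rfl
  rw [z_T] at h1
  revert h1
  decide

theorem z_supp' (σ : Finset (Fin 17)) (h : z σ ≠ 0) : ∃ i, σ = T i := by
  by_contra hcon
  push Not at hcon
  apply h
  funext y
  show ∑ i : Fin 36, (if σ = T i then zc i else 0) = 0
  exact Finset.sum_eq_zero fun i _ => if_neg (hcon i)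

theorem z_supp : ∀ σ, z σ ≠ 0 → σ.card = 3 ∧ Pool.LU.Clq adjL σ := by
  intro σ h
  obtain ⟨i, rfl⟩ := z_supp' σ h
  exact ⟨T_card i, fun u hu v hv huv => T_clq i u hu v hv huv⟩

def memT (i : Fin 36) (v : Fin 17) : Bool :=
  tri i 0 == v || tri i 1 == v || tri i 2 == v

theorem memT_iff : ∀ i v, v ∈ T i ↔ memT i v = true := by decide +kernel

/-- the sum over the third vertices, for the pair `a`, `b` -/
def pairSum (a b : Fin 17) : ZMod 3 :=
  ∑ v : Fin 17, if v = a ∨ v = b then 0 else
    ((-1) ^ ((if a < v then 1 else 0) + (if b < v then 1 else 0) : ℕ) : ZMod 3) *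
      ∑ i : Fin 36, if memT i v && memT i a && memT i b then zc i else 0

theorem pairSum_eq : ∀ a b : Fin 17, a < b → pairSum a b = 0 := by decide +kernel

theorem z_pair (a b v : Fin 17) (hab : a ≠ b) (hva : v ≠ a) (hvb : v ≠ b) (y : Unit) :
    z (insert v {a, b}) y = ∑ i : Fin 36, if memT i v && memT i a && memT i b then zc i else 0 := by
  unfold z
  refine Finset.sum_congr rfl fun i _ => ?_
  have hcard : (insert v ({a, b} : Finset (Fin 17))).card = 3 := by
    rw [Finset.card_insert_of_notMem (by simp [hva, hvb]), Finset.card_pair hab]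
  have : insert v ({a, b} : Finset (Fin 17)) = T i ↔ (memT i v && memT i a && memT i b) = true := by
    rw [Bool.and_eq_true, Bool.and_eq_true, ← memT_iff, ← memT_iff, ← memT_iff]
    constructor
    · intro h
      rw [← h]
      simp
    · rintro ⟨⟨h1, h2⟩, h3⟩
      refine Finset.eq_of_subset_of_card_le ?_ (by rw [hcard, T_card])
      intro x hx
      simp only [Finset.mem_insert, Finset.mem_singleton] at hx
      rcases hx with rfl | rfl | rfl
      · exact h1
      · exact h2
      · exact h3
  by_cases h : insert v ({a, b} : Finset (Fin 17)) = T i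
  · rw [if_pos h, if_pos (this.1 h)]
  · rw [if_neg h, if_neg fun h' => h (this.2 h')]

theorem z_cyc : bd (ZMod 3) (fun v : Fin 17 => (v : ℕ)) Unit z = 0 := by
  funext τ y
  rw [bd_apply]
  show _ = (0 : ZMod 3)
  by_cases hτ : τ.card = 2
  · obtain ⟨a, b, hab, rfl⟩ := Finset.card_eq_two.1 hτ
    -- we may assume `a < b`
    wlog hlt : a < b generalizing a b
    · have h := this b a hab.symm (by rw [Finset.card_pair hab.symm])
        (lt_of_le_of_ne (not_lt.1 hlt) hab.symm)
      rwa [Finset.pair_comm] at h
    rw [← pairSum_eq a b hlt]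
    unfold pairSum
    have hsub : (Finset.univ \ {a, b} : Finset (Fin 17)) ⊆ Finset.univ := Finset.subset_univ _
    rw [← Finset.sum_subset hsub (f := fun v => if v = a ∨ v = b then (0 : ZMod 3) else
      ((-1) ^ ((if a < v then 1 else 0) + (if b < v then 1 else 0) : ℕ) : ZMod 3) *
      ∑ i : Fin 36, if memT i v && memT i a && memT i b then zc i else 0)]
    · refine Finset.sum_congr rfl fun v hv => ?_
      have hv' : v ≠ a ∧ v ≠ b := by
        simpa using hv
      rw [if_neg (by tauto), z_pair a b v hab hv'.1 hv'.2]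
      congr 1
      unfold sg
      have hf : (Finset.filter (fun u : Fin 17 => (u : ℕ) < v) {a, b}).card =
          (if a < v then 1 else 0) + (if b < v then 1 else 0) := by
        rw [Finset.card_filter, Finset.sum_pair hab]
        rfl
      rw [hf]
      push_cast
      rfl
    · intro v _ hv
      have : v = a ∨ v = b := by
        by_contra hcon
        apply hv
        simp only [Finset.mem_sdiff, Finset.mem_univ, true_and, Finset.mem_insert,
          Finset.mem_singleton]
        exact hcon
      rw [if_pos this]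
  · refine Finset.sum_eq_zero fun v hv => ?_
    have hz : z (insert v τ) = 0 := by
      by_contra hne
      have := (z_supp _ hne).1
      rw [Finset.card_insert_of_notMem (by simpa using hv)] at this
      omega
    rw [hz, Pi.zero_apply, mul_zero]

end Pool.LU.Z2
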