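import Pool.Agent.H81.LU.YStmts

/-!
Project LU, part Y, module CHN: a chain of normal subgroups with small Betti numbers and large
torsion.
-/

set_option autoImplicit false

open scoped BigOperators Topology
open Filter Pool.H3.L2

noncomputable section

namespace Pool.LU

/-- The members of the recursion. -/
structure GMem (G : Type) [Group G] where
  N : Subgroup G
  normal : N.Normal
  fin : N.FiniteIndex

attribute [instance] GMem.normal GMem.fin

theorem chn : CHNStmt := by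
  intro G _ c C ε hε h
  have h' : ∀ (i : ℕ) (M : GMem G), ∃ M' : GMem G, M'.N ≤ M.N ∧
      (∀ k, ((C.cover M'.N).betti ℝ k : ℝ) ≤ (M'.N.index : ℝ) / ((i : ℝ) + 1)) ∧
      ε * (M'.N.index : ℝ) ≤ Real.log ((C.cover M'.N).torsOrd 2) := by
    intro i M
    obtain ⟨B, hB⟩ := h M.N
    obtain ⟨K', h1, h2, h3, h4, h5, h6⟩ := hB (B * (i + 1))
    refine ⟨⟨K', h1, h2⟩, h3, fun k => ?_, h6⟩
    have h7 : (0 : ℝ) < (i : ℝ) + 1 := by positivity
    rw [le_div_iff₀ h7]
    have h8 : (((C.cover K').betti ℝ k : ℕ) : ℝ) ≤ B := by exact_mod_cast h5 k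
    have h9 : (B : ℝ) * ((i : ℝ) + 1) ≤ (K'.index : ℝ) := by exact_mod_cast h4
    exact (mul_le_mul_of_nonneg_right h8 h7.le).trans h9
  choose f hf1 hf2 hf3 using h'
  let cut : ℕ → GMem G → GMem G := fun i M =>
    ⟨M.N ⊓ c.N i, by
      have := M.normal
      have := c.normal i
      infer_instance, by
      have := M.fin
      have := c.fin i
      infer_instance⟩
  let M0 : GMem G := ⟨c.N 0, c.normal 0, c.fin 0⟩
  obtain ⟨g, hg0, hg1⟩ : ∃ g : ℕ → GMem G, g 0 = f 0 M0 ∧
      ∀ i, g (i + 1) = f (i + 1) (cut (i + 1) (g i)) :=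
    ⟨fun n => Nat.rec (f 0 M0) (fun i M => f (i + 1) (cut (i + 1) M)) n, rfl, fun i => rfl⟩
  have hle : ∀ i, (g (i + 1)).N ≤ (g i).N ⊓ c.N (i + 1) := by
    intro i
    rw [hg1]
    exact hf1 _ _
  have hle0 : ∀ i, (g i).N ≤ c.N i := by
    intro i
    cases i with
    | zero =>
      rw [hg0]
      exact hf1 _ _
    | succ i => exact (hle i).trans inf_le_right
  have hg2 : ∀ i : ℕ, (∀ k, ((C.cover (g i).N).betti ℝ k : ℝ) ≤
      ((g i).N.index : ℝ) / ((i : ℝ) + 1)) ∧
      ε * ((g i).N.index : ℝ) ≤ Real.log ((C.cover (g i).N).torsOrd 2) := by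
    intro i
    cases i with
    | zero =>
      rw [hg0]
      exact ⟨hf2 _ _, hf3 _ _⟩
    | succ i =>
      rw [hg1]
      exact ⟨hf2 _ _, hf3 _ _⟩
  refine ⟨⟨fun i => (g i).N, fun i => (g i).normal, fun i => (g i).fin,
    antitone_nat_of_succ_le fun i => (hle i).trans inf_le_left, ?_⟩, ?_, ?_⟩
  · rw [eq_bot_iff, ← c.inf]
    exact le_iInf fun i => (iInf_le _ i).trans (hle0 i)
  · intro j
    have hz : Tendsto (fun i : ℕ => 1 / ((i : ℝ) + 1)) atTop (𝓝 0) :=
      tendsto_one_div_add_atTop_nhds_zero_nat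
    refine squeeze_zero (fun i => by positivity) (fun i => ?_) hz
    have h1 : (0 : ℝ) < ((g i).N.index : ℝ) := by
      have h0 : (g i).N.index ≠ 0 := Subgroup.FiniteIndex.index_ne_zero
      exact_mod_cast Nat.pos_of_ne_zero h0
    have h2 := (hg2 i).1 j
    have h3 : (0 : ℝ) < (i : ℝ) + 1 := by positivity
    show ((C.cover (g i).N).betti ℝ j : ℝ) / ((g i).N.index : ℝ) ≤ 1 / ((i : ℝ) + 1)
    rw [div_le_div_iff₀ h1 h3, one_mul]
    rw [le_div_iff₀ h3] at h2
    exact h2
  · exact (Eventually.of_forall fun i => (hg2 i).2).frequently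

end Pool.LU
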