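import Pool.Agent.H85.LU.CNT
import Pool.Agent.H3.LU.Uni

/-!
Project LU, part Y, module LVL: the growth at one level.
-/

set_option autoImplicit false

open scoped BigOperators Topology
open Filter Pool.H3.L2

noncomputable section

namespace Pool.LU

theorem lvl (gen : GENStmt) (mcy : MCYStmt) (fil : FILStmt) (tg : TGStmt) (hgt : HGTStmt)
    (nst : NSTStmt) (resz : RESZStmt) : LVLStmt := by
  classical
  intro V _ _ adj hs hi W _ R o ho n κ s h1 h2 h3 h4 h5 h6
  obtain ⟨C, hC, hC'⟩ := resz V adj hs hi W R o ho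
  obtain ⟨h, hh⟩ := hgt V adj hs W R n κ s h1
  obtain ⟨-, i2, -⟩ := idx V adj hs W R
  obtain ⟨b, hb⟩ := h6
  refine ⟨C, hC, 2 ^ Fintype.card V / 2 ^ n * (Real.log 2 / 2), by
    have := Real.log_pos (by norm_num : (1 : ℝ) < 2)
    positivity, ?_⟩
  intro K _ _
  obtain ⟨H, col, g1, g2, g3, g4⟩ := nst V adj hs W R n κ s h1 h2 h hh K
  have e1 : ∀ x k, k ≠ 2 → Subsingleton ((St adj o ho (H.des x)).Hk k) := by
    intro x k hk
    rw [g1]
    exact h4 _ k hk
  have e2 : ∀ x, Finite ((St adj o ho (H.des x)).Hk 2) := by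
    intro x
    rw [g1]
    exact h5 _
  obtain ⟨f1, f2, f3⟩ := fil V adj H o ho e1 e2
  -- the cardinality of the homology at `u = 0`
  have hcnt := cnt V H.X n κ H.ρ col H.ρρ g2 h3 b
  have hpos : ∀ x, 1 ≤ Nat.card ((St adj o ho (H.des x)).Hk 2) := by
    intro x
    have := e2 x
    exact Nat.card_pos
  have hbad : 2 ^ (Finset.univ.filter (fun x : H.X => col x = b)).card ≤
      Nat.card ((at0 (H.Mor o ho)).Hk 2) := by
    rw [f3, ← Finset.prod_const]
    refine (Finset.prod_le_prod' (f := fun _ => 2)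
      (g := fun x => Nat.card ((St adj o ho (H.des x)).Hk 2)) fun x hx => ?_).trans
      (Finset.prod_le_prod_of_subset_of_one_le' (Finset.filter_subset _ _) fun x _ _ => hpos x)
    rw [Finset.mem_filter] at hx
    have h7 : H.des x = stA κ s b := by rw [g1, hx.2]
    show 2 ≤ Nat.card ((St adj o ho (H.des x)).Hk 2)
    rw [h7]
    exact hb
  set N0 := (Finset.univ.filter (fun x : H.X => col x = b)).card with hN0
  have hK : 0 < K.index := Nat.pos_of_ne_zero Subgroup.FiniteIndex.index_ne_zero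
  have hN0' : (2 : ℝ) ^ n * (N0 : ℝ) = 2 ^ Fintype.card V * (K.index : ℝ) := by
    have h7 : 2 ^ n * N0 = 2 ^ Fintype.card V * K.index := hcnt.trans g3
    exact_mod_cast h7
  have hN1 : 0 < N0 := by
    rcases Nat.eq_zero_or_pos N0 with h7 | h7
    · rw [h7, Nat.cast_zero, mul_zero] at hN0'
      have : (0 : ℝ) < 2 ^ Fintype.card V * (K.index : ℝ) := by positivity
      exact absurd hN0' this.ne
    · exact h7
  have hcard : 1 < Nat.card ((at0 (H.Mor o ho)).Hk 2) :=
    lt_of_lt_of_le (Nat.one_lt_two_pow hN1.ne') hbad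
  obtain ⟨⟨B, hB⟩, ht⟩ := tg (H.Mor o ho) f1 f2 hcard
  refine ⟨B, fun M => ?_⟩
  have hlog2 : 0 < Real.log 2 := Real.log_pos (by norm_num)
  have ha : (N0 : ℝ) * (Real.log 2 / 2) < Real.log (Nat.card ((at0 (H.Mor o ho)).Hk 2)) := by
    have h8 : (N0 : ℝ) * Real.log 2 ≤ Real.log (Nat.card ((at0 (H.Mor o ho)).Hk 2)) := by
      rw [← Real.log_pow]
      refine Real.log_le_log (by positivity) ?_
      exact_mod_cast hbad
    have h9 : (0 : ℝ) < N0 := by exact_mod_cast hN1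
    nlinarith
  obtain ⟨m, hm, hMm, hm2⟩ := ht _ ha M
  obtain ⟨K', k1, k2, k3, k4, k5⟩ := g4 m
  obtain ⟨j1, j2⟩ := i2 K' k2
  obtain ⟨e, he⟩ := k5 j2 j1
  obtain ⟨q1, q2⟩ := gen V adj o _ _ _ _ e he (C.cover K') (cyc (H.Mor o ho) m)
    (hC' K' j2 j1) (mcy V adj H o ho m)
  refine ⟨K', k1, k2, k3, ?_, fun k => ?_, ?_⟩
  · rw [k4]
    exact hMm.trans (Nat.le_mul_of_pos_left m hK)
  · rw [q2]
    exact hB m k
  · rw [q1, k4]
    refine le_trans (le_of_eq ?_) hm2
    push_cast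
    have h2n : (2 : ℝ) ^ n ≠ 0 := by positivity
    have h8 : (N0 : ℝ) = 2 ^ Fintype.card V / 2 ^ n * (K.index : ℝ) := by
      field_simp
      linarith
    rw [h8]
    ring

end Pool.LU
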