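import Pool.Agent.H81.LU.YStmts

/-!
Project LU, part Y, module CNT: every state occurs equally often.
-/

set_option autoImplicit false

open scoped BigOperators

noncomputable section

namespace Pool.LU

theorem cnt : CNTStmt := by
  classical
  intro V X _ _ n κ ρ col h1 h2 h3 b
  let F : (Fin n → ℤˣ) → ℕ := fun b => (Finset.univ.filter (fun x : X => col x = b)).card
  have hflip : ∀ (b : Fin n → ℤˣ) (c : Fin n), F (b * Pi.mulSingle c (-1)) = F b := by
    intro b c
    obtain ⟨v, hv⟩ := h3 c
    refine Finset.card_bij (fun x _ => ρ v x) ?_ ?_ ?_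
    · intro x hx
      rw [Finset.mem_filter] at hx ⊢
      refine ⟨Finset.mem_univ _, ?_⟩
      funext d
      rw [h2, hx.2, hv, Pi.mul_apply]
      by_cases hd : d = c
      · subst hd
        rw [if_pos rfl, Pi.mulSingle_eq_same]
        simp
      · rw [if_neg hd, Pi.mulSingle_eq_of_ne hd, mul_one]
    · intro x _ y _ h
      have h' : ρ v (ρ v x) = ρ v (ρ v y) := congrArg (ρ v) h
      rwa [h1, h1] at h'
    · intro x hx
      rw [Finset.mem_filter] at hx
      refine ⟨ρ v x, ?_, h1 v x⟩
      rw [Finset.mem_filter]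
      refine ⟨Finset.mem_univ _, ?_⟩
      funext d
      rw [h2, hx.2, hv, Pi.mul_apply]
      by_cases hd : d = c
      · subst hd
        rw [if_pos rfl, Pi.mulSingle_eq_same]
        simp
      · rw [if_neg hd, Pi.mulSingle_eq_of_ne hd, mul_one]
  have hmul : ∀ (b : Fin n → ℤˣ) (c : Fin n) (e : ℤˣ), F (b * Pi.mulSingle c e) = F b := by
    intro b c e
    rcases Int.units_eq_one_or e with rfl | rfl
    · rw [Pi.mulSingle_one, mul_one]
    · exact hflip b c
  have hall : ∀ (S : Finset (Fin n)) (b : Fin n → ℤˣ),
      F (∏ c ∈ S, Pi.mulSingle c (b c)) = F 1 := by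
    intro S b
    induction S using Finset.induction_on with
    | empty => rw [Finset.prod_empty]
    | insert c S hc ih => rw [Finset.prod_insert hc, mul_comm, hmul, ih]
  have hF : ∀ b, F b = F 1 := by
    intro b
    have h4 := hall Finset.univ b
    rwa [Finset.univ_prod_mulSingle] at h4
  have hsum : ∑ b : Fin n → ℤˣ, F b = Fintype.card X := by
    have h5 := Finset.card_eq_sum_card_fiberwise (f := col) (s := (Finset.univ : Finset X))
      (t := (Finset.univ : Finset (Fin n → ℤˣ))) (fun x _ => Finset.mem_coe.2 (Finset.mem_univ _))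
    rw [Finset.card_univ] at h5
    exact h5.symm
  rw [Finset.sum_congr rfl fun b _ => hF b, Finset.sum_const, Finset.card_univ,
    Fintype.card_fun, Fintype.card_units_int, Fintype.card_fin, smul_eq_mul] at hsum
  have h6 := hF b
  rw [← hsum, ← h6]

end Pool.LU
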