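import Pool.Agent.H85.LU.P17

/-!
# Lifts of the circle valued cochain and the resulting complex valued functions
-/

set_option autoImplicit false

open scoped BigOperators

namespace Pool.LU.Z2

/-- the cochain -/
def cc (k l m : Fin 43) : ℤ := (ccN k l m : ℤ) - 17

structure Lift (P N : Fin 43 → Prop) (θ : Fin 43 → Fin 43 → ℤ) : Prop where
  par : ∀ k l, P k → N l → (θ k l + (gtN k l : ℤ)) % 2 = 0
  ne : ∀ k l, P k → N l → k ≠ l
  right : ∀ k l l', P k → N l → N l' → θ k l' - θ k l = cc k l l'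
  left : ∀ k k' l, P k → P k' → N l → θ k' l - θ k l = cc l k k'

theorem Lift.mono {P N P' N' : Fin 43 → Prop} {θ : Fin 43 → Fin 43 → ℤ} (h : Lift P N θ)
    (hP : ∀ k, P' k → P k) (hN : ∀ k, N' k → N k) : Lift P' N' θ where
  par k l hk hl := h.par k l (hP k hk) (hN l hl)
  ne k l hk hl := h.ne k l (hP k hk) (hN l hl)
  right k l l' hk hl hl' := h.right k l l' (hP k hk) (hN l hl) (hN l' hl')
  left k k' l hk hk' hl := h.left k k' l (hP k hk) (hP k' hk') (hN l hl)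

theorem Lift.const {P N : Fin 43 → Prop} {θ θ' : Fin 43 → Fin 43 → ℤ} (h : Lift P N θ)
    (h' : Lift P N θ') : ∃ m : ℤ, ∀ k l, P k → N l → θ k l - θ' k l = 2 * m := by
  by_cases hP : ∃ k, P k
  · by_cases hN : ∃ l, N l
    · obtain ⟨k0, hk0⟩ := hP
      obtain ⟨l0, hl0⟩ := hN
      have e1 := h.par k0 l0 hk0 hl0
      have e2 := h'.par k0 l0 hk0 hl0
      refine ⟨(θ k0 l0 - θ' k0 l0) / 2, fun k l hk hl => ?_⟩
      have a1 := h.right k0 l0 l hk0 hl0 hl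
      have a2 := h'.right k0 l0 l hk0 hl0 hl
      have b1 := h.left k0 k l hk0 hk hl
      have b2 := h'.left k0 k l hk0 hk hl
      omega
    · exact ⟨0, fun k l _ hl => absurd ⟨l, hl⟩ hN⟩
  · exact ⟨0, fun k l hk _ => absurd ⟨k, hk⟩ hP⟩

theorem gtN_swap {k l : Fin 43} (h : k ≠ l) : gtN k l + gtN l k = 1 := by
  have : (k : ℕ) ≠ l := fun h' => h (Fin.ext h')
  unfold gtN
  split_ifs <;> omega

theorem Lift.swap {P N : Fin 43 → Prop} {θ θ' : Fin 43 → Fin 43 → ℤ} (h : Lift P N θ)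
    (h' : Lift N P θ') : ∃ m : ℤ, ∀ k l, P k → N l → θ' l k - θ k l = 2 * m + 1 := by
  by_cases hP : ∃ k, P k
  · by_cases hN : ∃ l, N l
    · obtain ⟨k0, hk0⟩ := hP
      obtain ⟨l0, hl0⟩ := hN
      have e1 := h.par k0 l0 hk0 hl0
      have e2 := h'.par l0 k0 hl0 hk0
      have e3 := gtN_swap (h.ne k0 l0 hk0 hl0)
      refine ⟨(θ' l0 k0 - θ k0 l0 - 1) / 2, fun k l hk hl => ?_⟩
      have a1 := h.right k0 l0 l hk0 hl0 hl
      have a2 := h'.left l0 l k0 hl0 hl hk0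
      have b1 := h.left k0 k l hk0 hk hl
      have b2 := h'.right l k0 k hl hk0 hk
      omega
    · exact ⟨0, fun k l _ hl => absurd ⟨l, hl⟩ hN⟩
  · exact ⟨0, fun k l hk _ => absurd ⟨k, hk⟩ hP⟩

/-- the phase -/
noncomputable def ph (p n : Fin 43 → ℝ) (θ : Fin 43 → Fin 43 → ℤ) : ℝ :=
  ∑ k, ∑ l, p k * n l * (θ k l : ℝ)

noncomputable def EE (p n : Fin 43 → ℝ) (θ : Fin 43 → Fin 43 → ℤ) : ℂ :=
  ((∑ k, p k : ℝ) : ℂ) *
    Complex.exp (((Real.pi * (ph p n θ / (∑ k, p k) ^ 2) : ℝ) : ℂ) * Complex.I)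

theorem ph_sub {p n : Fin 43 → ℝ} {θ θ' : Fin 43 → Fin 43 → ℤ} (c : ℤ)
    (h : ∀ k l, p k ≠ 0 → n l ≠ 0 → θ k l - θ' k l = c) :
    ph p n θ = ph p n θ' + c * ((∑ k, p k) * ∑ l, n l) := by
  unfold ph
  rw [Finset.sum_mul_sum, Finset.mul_sum, ← Finset.sum_add_distrib]
  refine Finset.sum_congr rfl fun k _ => ?_
  rw [Finset.mul_sum, ← Finset.sum_add_distrib]
  refine Finset.sum_congr rfl fun l _ => ?_
  by_cases hk : p k = 0
  · simp [hk]
  by_cases hl : n l = 0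
  · simp [hl]
  have h1 : (θ k l : ℝ) - θ' k l = c := by exact_mod_cast h k l hk hl
  linear_combination (p k * n l) * h1

theorem EE_congr {p n : Fin 43 → ℝ} {θ θ' : Fin 43 → Fin 43 → ℤ} (hpn : ∑ k, p k = ∑ k, n k)
    (m : ℤ) (h : ∀ k l, p k ≠ 0 → n l ≠ 0 → θ k l - θ' k l = 2 * m) : EE p n θ = EE p n θ' := by
  unfold EE
  by_cases hS : (∑ k, p k) = 0
  · rw [hS]; simp
  congr 1
  rw [ph_sub (2 * m) h, ← hpn]
  have e : Real.pi * ((ph p n θ' + ((2 * m : ℤ) : ℝ) * ((∑ k, p k) * ∑ k, p k)) / (∑ k, p k) ^ 2)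
      = Real.pi * (ph p n θ' / (∑ k, p k) ^ 2) + m * (2 * Real.pi) := by
    push_cast
    field_simp
  rw [e]
  rw [Complex.exp_eq_exp_iff_exists_int]
  refine ⟨m, ?_⟩
  push_cast
  ring

theorem ph_swap (p n : Fin 43 → ℝ) (θ : Fin 43 → Fin 43 → ℤ) :
    ph n p (fun l k => θ k l) = ph p n θ := by
  unfold ph
  rw [Finset.sum_comm]
  refine Finset.sum_congr rfl fun k _ => Finset.sum_congr rfl fun l _ => by ring

theorem EE_swap {p n : Fin 43 → ℝ} {θ θ' : Fin 43 → Fin 43 → ℤ} (hpn : ∑ k, p k = ∑ k, n k)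
    (m : ℤ) (h : ∀ k l, p k ≠ 0 → n l ≠ 0 → θ' l k - θ k l = 2 * m + 1) :
    EE n p θ' = - EE p n θ := by
  unfold EE
  by_cases hS : (∑ k, p k) = 0
  · rw [← hpn, hS]; simp
  rw [← hpn, ← ph_swap n p θ', ph_sub (θ := fun l k => θ' k l) (θ' := θ) (2 * m + 1) h, ← hpn]
  have e : Real.pi * ((ph p n θ + ((2 * m + 1 : ℤ) : ℝ) * ((∑ k, p k) * ∑ k, p k))
      / (∑ k, p k) ^ 2)
      = Real.pi * (ph p n θ / (∑ k, p k) ^ 2) + (m * (2 * Real.pi) + Real.pi) := by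
    push_cast
    field_simp
  rw [e]
  have e2 : (((Real.pi * (ph p n θ / (∑ k, p k) ^ 2) + (m * (2 * Real.pi) + Real.pi) : ℝ) : ℂ)
      * Complex.I) = ((Real.pi * (ph p n θ / (∑ k, p k) ^ 2) : ℝ) : ℂ) * Complex.I
      + (m * (2 * Real.pi * Complex.I) + Real.pi * Complex.I) := by
    push_cast
    ring
  rw [e2, Complex.exp_add, Complex.exp_add, Complex.exp_pi_mul_I, Complex.exp_int_mul_two_pi_mul_I]
  ring

theorem EE_norm {p n : Fin 43 → ℝ} {θ : Fin 43 → Fin 43 → ℤ} (hp : 0 ≤ ∑ k, p k) :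
    ‖EE p n θ‖ = ∑ k, p k := by
  unfold EE
  rw [norm_mul, Complex.norm_exp_ofReal_mul_I, mul_one, Complex.norm_real, Real.norm_of_nonneg hp]

theorem EE_continuous {X : Type*} [TopologicalSpace X] {p n : X → Fin 43 → ℝ}
    (hp : Continuous p) (hn : Continuous n) (h0 : ∀ x k, 0 ≤ p x k)
    (θ : Fin 43 → Fin 43 → ℤ) : Continuous fun x => EE (p x) (n x) θ := by
  have hpk : ∀ k, Continuous fun x => p x k := fun k => (continuous_apply k).comp hp
  have hnk : ∀ k, Continuous fun x => n x k := fun k => (continuous_apply k).comp hn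
  have hS : Continuous fun x => ∑ k, p x k := continuous_finsetSum _ fun k _ => hpk k
  have hph : Continuous fun x => ph (p x) (n x) θ := by
    unfold ph
    exact continuous_finsetSum _ fun k _ => continuous_finsetSum _ fun l _ =>
      ((hpk k).mul (hnk l)).mul continuous_const
  have hS0 : ∀ x, 0 ≤ ∑ k, p x k := fun x => Finset.sum_nonneg fun k _ => h0 x k
  rw [continuous_iff_continuousAt]
  intro x
  by_cases hx : (∑ k, p x k) = 0
  · have hz : EE (p x) (n x) θ = 0 := by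
      unfold EE; rw [hx]; simp
    rw [ContinuousAt, hz, tendsto_zero_iff_norm_tendsto_zero]
    have : (fun y => ‖EE (p y) (n y) θ‖) = fun y => ∑ k, p y k := by
      funext y
      exact EE_norm (hS0 y)
    rw [this]
    have := hS.tendsto x
    rwa [hx] at this
  · unfold EE
    refine ContinuousAt.mul ?_ ?_
    · exact (Complex.continuous_ofReal.comp hS).continuousAt
    · refine Complex.continuous_exp.continuousAt.comp ?_
      refine ContinuousAt.mul ?_ continuousAt_const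
      refine Complex.continuous_ofReal.continuousAt.comp ?_
      refine continuousAt_const.mul ?_
      exact hph.continuousAt.div (hS.continuousAt.pow 2) (pow_ne_zero 2 hx)

/-- the complex valued function on pairs of weight vectors -/
noncomputable def GG (p n : Fin 43 → ℝ) : ℂ :=
  open Classical in
  if h : ∃ θ, Lift (fun k => 0 < p k) (fun k => 0 < n k) θ then EE p n h.choose else 0

theorem GG_eq {p n : Fin 43 → ℝ} {P N : Fin 43 → Prop} {θ : Fin 43 → Fin 43 → ℤ}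
    (h : Lift P N θ) (hp : ∀ k, 0 < p k → P k) (hn : ∀ k, 0 < n k → N k)
    (hp0 : ∀ k, 0 ≤ p k) (hn0 : ∀ k, 0 ≤ n k) (hpn : ∑ k, p k = ∑ k, n k) :
    GG p n = EE p n θ := by
  have h1 : Lift (fun k => 0 < p k) (fun k => 0 < n k) θ := h.mono hp hn
  unfold GG
  have hex : ∃ θ, Lift (fun k => 0 < p k) (fun k => 0 < n k) θ := ⟨θ, h1⟩
  rw [dif_pos hex]
  obtain ⟨m, hm⟩ := hex.choose_spec.const h1
  exact EE_congr hpn m fun k l hk hl => hm k l (lt_of_le_of_ne (hp0 k) (Ne.symm hk))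
    (lt_of_le_of_ne (hn0 l) (Ne.symm hl))

theorem GG_swap {p n : Fin 43 → ℝ} {P N : Fin 43 → Prop} {θ θ' : Fin 43 → Fin 43 → ℤ}
    (h : Lift P N θ) (h' : Lift N P θ') (hp : ∀ k, 0 < p k → P k) (hn : ∀ k, 0 < n k → N k)
    (hp0 : ∀ k, 0 ≤ p k) (hn0 : ∀ k, 0 ≤ n k) (hpn : ∑ k, p k = ∑ k, n k) :
    GG n p = - GG p n := by
  rw [GG_eq h hp hn hp0 hn0 hpn, GG_eq h' hn hp hn0 hp0 hpn.symm]
  obtain ⟨m, hm⟩ := h.swap h'
  exact EE_swap hpn m fun k l hk hl => hm k l (hp k (lt_of_le_of_ne (hp0 k) (Ne.symm hk)))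
    (hn l (lt_of_le_of_ne (hn0 l) (Ne.symm hl)))

end Pool.LU.Z2
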