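import Pool.Agent.H85.LU.Z2Geo
import Pool.Agent.H13.LU.PartA

/-!
Project LU, part A: the odd map in the numbering of `H13/LU/P17.lean` and the data of part A.
-/

set_option autoImplicit false

namespace Pool.LU.Z2

/-- the relabelling of the vertices -/
def relab (a : Fin 17) : Fin 17 :=
  ![3, 0, 2, 1, 4, 6, 8, 10, 12, 14, 5, 7, 9, 11, 13, 15, 16] a

theorem relab_inj : ∀ a b, relab a = relab b → a = b := by decide +kernel

theorem relab_surj : ∀ b, ∃ a, relab a = b := by decide +kernel

theorem relab_adj : ∀ a b, Pool.LU.P17.adj (relab a) (relab b) → adjB a b = true := by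
  decide +kernel

def Rl (v : V) : V := (relab v.1, v.2)

theorem Rl_inj {v w : V} (h : Rl v = Rl w) : v = w := by
  unfold Rl at h
  rw [Prod.mk.injEq] at h
  exact Prod.ext (relab_inj _ _ h.1) h.2

theorem clq_relab {u : V → ℝ} (h : Pool.LU.Retract.pos u ∈ Pool.LU.OK) :
    Clq {v | 0 < (fun v => u (Rl v)) v} := by
  intro v hv w hw hvw
  have hv' : Rl v ∈ Pool.LU.Retract.pos u := (Pool.LU.Retract.mem_pos _ _).2 hv
  have hw' : Rl w ∈ Pool.LU.Retract.pos u := (Pool.LU.Retract.mem_pos _ _).2 hw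
  exact relab_adj _ _ (h (Rl v) hv' (Rl w) hw' fun hh => hvw (Rl_inj hh))

end Pool.LU.Z2

namespace Pool.LU

/-- the odd map -/
theorem z2Map : Z2Map := by
  obtain ⟨F, hFc, hFn, hF⟩ := Z2.z2map
  have hc : Continuous fun u : Fin 17 × Bool → ℝ => fun v => u (Z2.Rl v) :=
    continuous_pi fun v => continuous_apply _
  refine ⟨fun u => F fun v => u (Z2.Rl v), (hFc.comp hc).continuousOn, fun u _ => ?_,
    fun u hu hne => ?_⟩
  · exact hFn fun v => u (Z2.Rl v)
  · refine hF _ ?_ (Z2.clq_relab hu.1) ?_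
    · intro h0
      apply hne
      funext v
      obtain ⟨a, ha⟩ := Z2.relab_surj v.1
      have h1 : u (Z2.Rl (a, v.2)) = 0 := congrFun h0 (a, v.2)
      have h2 : Z2.Rl (a, v.2) = v := Prod.ext ha rfl
      rw [h2] at h1
      exact h1
    · have h1 := Z2.clq_relab hu.2
      have e : {v : Z2.V | (fun v => u (Z2.Rl v)) v < 0} =
          {v | 0 < (fun v => (-u) (Z2.Rl v)) v} := by
        ext v
        simp
      rw [e]
      exact h1

/-- **Part A** -/
theorem partA : Nonempty PartA := partA_of z2Map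

end Pool.LU
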