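import Pool.Agent.H85.LU.Z2Map

/-!
# The odd map on the deleted join of the octahedralised Moore complex: geometry
-/

set_option autoImplicit false

open scoped BigOperators
open Set

namespace Pool.LU.Z2

/-! ## Weights -/

noncomputable def wt (u : V → ℝ) (k : Fin 43) : ℝ :=
  if k.1 < 31 then
    min (max (u (hi k, false)) 0) (max (-u (lo k, false)) 0) +
      min (max (u (hi k, true)) 0) (max (-u (lo k, true)) 0)
  else max (u (cv k)) 0

theorem wt_nonneg (u : V → ℝ) (k : Fin 43) : 0 ≤ wt u k := by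
  unfold wt
  split_ifs
  · exact add_nonneg (le_min (le_max_right _ _) (le_max_right _ _))
      (le_min (le_max_right _ _) (le_max_right _ _))
  · exact le_max_right _ _

theorem wt_cont : Continuous wt := by
  refine continuous_pi fun k => ?_
  unfold wt
  split_ifs
  · refine Continuous.add ?_ ?_
    · exact ((continuous_apply _).max continuous_const).min
        ((continuous_apply _).neg.max continuous_const)
    · exact ((continuous_apply _).max continuous_const).min
        ((continuous_apply _).neg.max continuous_const)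
  · exact (continuous_apply _).max continuous_const

theorem min_max_pos {a b : ℝ} (h : 0 < min (max a 0) (max (-b) 0)) : 0 < a ∧ b < 0 := by
  rw [lt_min_iff, lt_max_iff, lt_max_iff] at h
  obtain ⟨h1 | h1, h2 | h2⟩ := h
  · exact ⟨h1, by linarith⟩
  · exact absurd h2 (lt_irrefl _)
  · exact absurd h1 (lt_irrefl _)
  · exact absurd h1 (lt_irrefl _)

theorem wt_pos_pair {u : V → ℝ} {k : Fin 43} (hk : k.1 < 31) (h : 0 < wt u k) :
    ∃ e, 0 < u (hi k, e) ∧ u (lo k, e) < 0 := by
  unfold wt at h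
  rw [if_pos hk] at h
  by_cases h1 : 0 < min (max (u (hi k, false)) 0) (max (-u (lo k, false)) 0)
  · exact ⟨false, min_max_pos h1⟩
  · have h2 : 0 < min (max (u (hi k, true)) 0) (max (-u (lo k, true)) 0) := by linarith
    exact ⟨true, min_max_pos h2⟩

theorem wt_pos_single {u : V → ℝ} {k : Fin 43} (hk : ¬ k.1 < 31) (h : 0 < wt u k) :
    0 < u (cv k) := by
  unfold wt at h
  rw [if_neg hk] at h
  rcases lt_max_iff.1 h with h | h
  · exact h
  · exact absurd h (lt_irrefl _)

theorem wt_single {u : V → ℝ} {k : Fin 43} (hk : 31 ≤ k.1) : u (cv k) ≤ wt u k := by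
  unfold wt
  rw [if_neg (by omega)]
  exact le_max_left _ _

theorem wt_pair {u : V → ℝ} {k : Fin 43} (hk : k.1 < 31) (e : Bool) :
    min (u (hi k, e)) (-u (lo k, e)) ≤ wt u k := by
  unfold wt
  rw [if_pos hk]
  have h : ∀ a b : ℝ, min a b ≤ min (max a 0) (max b 0) := fun a b =>
    min_le_min (le_max_left _ _) (le_max_left _ _)
  have h0 : ∀ a b : ℝ, 0 ≤ min (max a 0) (max b 0) := fun a b =>
    le_min (le_max_right _ _) (le_max_right _ _)
  cases e
  · exact (h _ _).trans (le_add_of_nonneg_right (h0 _ _))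
  · exact (h _ _).trans (le_add_of_nonneg_left (h0 _ _))

/-! ## Cells -/

theorem mem_posL0 {i e j k : ℕ} (h : pc (tri i 0) (tri j 0) = 2 * k + 1) : k ∈ posL i e j := by
  unfold posL
  rw [h]
  have h1 : (2 * k + 1) % 2 = 1 := by omega
  have h2 : (2 * k + 1) / 2 = k := by omega
  simp [h1, h2]

theorem mem_posL1 {i e j k : ℕ} (h : pc (tri i 1) (tri j 1) = 2 * k + 1) : k ∈ posL i e j := by
  unfold posL
  rw [h]
  have h1 : (2 * k + 1) % 2 = 1 := by omega
  have h2 : (2 * k + 1) / 2 = k := by omega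
  simp [h1, h2]

theorem mem_posL2 {i e j k : ℕ} (h : 2 * tri i 2 + e + 23 = k) : k ∈ posL i e j := by
  unfold posL
  simp [h]

def PP (i : Fin 36) (e : Bool) (j : Fin 36) (k : Fin 43) : Prop := (k : ℕ) ∈ posL i e.toNat j

def InTri (i : Fin 36) (e : Bool) (v : V) : Prop :=
  (v.1 : ℕ) = tri i 0 ∨ (v.1 : ℕ) = tri i 1 ∨ ((v.1 : ℕ) = tri i 2 ∧ v.2 = e)

theorem supp_pos {u : V → ℝ} {i j : Fin 36} {e f : Bool} (hp : ∀ v, 0 < u v → InTri i e v)
    (hn : ∀ v, u v < 0 → InTri j f v) (k : Fin 43) (hk : 0 < wt u k) : PP i e j k := by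
  obtain ⟨i0, i1, i2, -, -, -⟩ := tri_fact i
  obtain ⟨j0, j1, j2, -, -, -⟩ := tri_fact j
  unfold PP
  by_cases h : k.1 < 31
  · obtain ⟨ε, h1, h2⟩ := wt_pos_pair h hk
    obtain ⟨f1, f2, f3, -⟩ := hilo ⟨k.1, h⟩
    simp only at f1 f2 f3
    have a1 := hp _ h1
    have a2 := hn _ h2
    unfold InTri at a1 a2
    simp only at a1 a2
    rcases a1 with a1 | a1 | a1 <;> rcases a2 with a2 | a2 | a2
    · apply mem_posL0; rw [← a1, ← a2]; exact f3
    · exfalso; rw [a1, a2] at f1; omega
    · exfalso; rw [a1, a2.1] at f1; omega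
    · exfalso; rw [a1, a2] at f1; omega
    · apply mem_posL1; rw [← a1, ← a2]; exact f3
    · exfalso; rw [a1, a2.1] at f1; omega
    · exfalso; rw [a1.1, a2] at f1; omega
    · exfalso; rw [a1.1, a2] at f1; omega
    · exfalso; rw [a1.1] at f2; omega
  · have h1 := wt_pos_single h hk
    obtain ⟨c1, c2⟩ := cv_fact k (by omega)
    have a1 := hp _ h1
    unfold InTri at a1
    rcases a1 with a1 | a1 | a1
    · exfalso; rw [a1] at c1; omega
    · exfalso; rw [a1] at c1; omega
    · apply mem_posL2; rw [← a1.1, ← a1.2]; exact c2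

theorem cell_lift (i j : Fin 36) (e f : Bool) (hne : ¬ (tri i 2 = tri j 2 ∧ e = f)) :
    ∃ θ, Lift (PP i e j) (PP j f i) θ := by
  have h := chkAll_eq
  unfold chkAll at h
  rw [List.all_eq_true] at h
  have h1 := h i.1 (List.mem_range.2 i.2)
  rw [List.all_eq_true] at h1
  have h2 := h1 e.toNat (List.mem_range.2 (by cases e <;> simp))
  rw [List.all_eq_true] at h2
  have h3 := h2 j.1 (List.mem_range.2 j.2)
  rw [List.all_eq_true] at h3
  have h4 := h3 f.toNat (List.mem_range.2 (by cases f <;> simp))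
  unfold chkCell at h4
  rw [Bool.or_eq_true] at h4
  rcases h4 with h4 | h4
  · exfalso
    apply hne
    rw [Bool.and_eq_true, beq_iff_eq, beq_iff_eq] at h4
    refine ⟨h4.1, ?_⟩
    have := h4.2
    cases e <;> cases f <;> simp_all
  · unfold chkPN at h4
    rw [List.all_eq_true] at h4
    set P := posL i e.toNat j with hP
    set N := posL j f.toNat i with hN
    have h5 : ∀ k ∈ P, ∀ l ∈ N,
        (thN (P.headD 0) (N.headD 0) k l + gtN k l) % 2 = 0 ∧ k ≠ l ∧
        (∀ l' ∈ N, thN (P.headD 0) (N.headD 0) k l' + 17 =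
          thN (P.headD 0) (N.headD 0) k l + ccN k l l') ∧
        (∀ k' ∈ P, thN (P.headD 0) (N.headD 0) k' l + 17 =
          thN (P.headD 0) (N.headD 0) k l + ccN l k k') := by
      intro k hk l hl
      have h6 := h4 k hk
      rw [List.all_eq_true] at h6
      have h7 := h6 l hl
      rw [Bool.and_eq_true, Bool.and_eq_true, Bool.and_eq_true, beq_iff_eq, bne_iff_ne,
        List.all_eq_true, List.all_eq_true] at h7
      refine ⟨h7.1.1.1, h7.1.1.2, fun l' hl' => ?_, fun k' hk' => ?_⟩
      · have := h7.1.2 l' hl'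
        rwa [beq_iff_eq] at this
      · have := h7.2 k' hk'
        rwa [beq_iff_eq] at this
    refine ⟨fun k l => (thN (P.headD 0) (N.headD 0) k l : ℤ) - 34, ?_, ?_, ?_, ?_⟩
    · intro k l hk hl
      have := (h5 k hk l hl).1
      omega
    · intro k l hk hl hkl
      exact (h5 k hk l hl).2.1 (by rw [hkl])
    · intro k l l' hk hl hl'
      have := (h5 k hk l hl).2.2.1 l' hl'
      unfold cc
      omega
    · intro k k' l hk hk' hl
      have := (h5 k hk l hl).2.2.2 k' hk'
      unfold cc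
      omega

/-- the closed cells -/
def Cell (i j : Fin 36) (e f : Bool) : Set (V → ℝ) :=
  {u | (∀ k, 0 < wt u k → PP i e j k) ∧ (∀ k, 0 < wt (-u) k → PP j f i k) ∧
    ∑ k, wt u k = ∑ k, wt (-u) k}

theorem cell_closed (i j : Fin 36) (e f : Bool) : IsClosed (Cell i j e f) := by
  have hw : ∀ k, Continuous fun u : V → ℝ => wt u k := fun k => (continuous_apply k).comp wt_cont
  have hw' : ∀ k, Continuous fun u : V → ℝ => wt (-u) k := fun k => (hw k).comp continuous_neg
  have key : ∀ (g : (V → ℝ) → ℝ) (_ : Continuous g) (Q : Prop), IsClosed {u | 0 < g u → Q} := by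
    intro g hg Q
    by_cases hQ : Q
    · have : {u : V → ℝ | 0 < g u → Q} = univ := by
        ext u; simp [hQ]
      rw [this]; exact isClosed_univ
    · have : {u : V → ℝ | 0 < g u → Q} = {u | g u ≤ 0} := by
        ext u; simp [hQ]
      rw [this]; exact isClosed_le hg continuous_const
  have e1 : Cell i j e f = (⋂ k, {u | 0 < wt u k → PP i e j k}) ∩
      ((⋂ k, {u | 0 < wt (-u) k → PP j f i k}) ∩ {u | ∑ k, wt u k = ∑ k, wt (-u) k}) := by
    ext u
    simp [Cell]
  rw [e1]
  refine IsClosed.inter (isClosed_iInter fun k => key _ (hw k) _)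
    (IsClosed.inter (isClosed_iInter fun k => key _ (hw' k) _) (isClosed_eq ?_ ?_))
  · exact continuous_finsetSum _ fun k _ => hw k
  · exact continuous_finsetSum _ fun k _ => hw' k

theorem cell_neg {i j : Fin 36} {e f : Bool} {u : V → ℝ} (h : u ∈ Cell i j e f) :
    -u ∈ Cell j i f e := by
  obtain ⟨h1, h2, h3⟩ := h
  refine ⟨h2, ?_, ?_⟩
  · rw [neg_neg]; exact h1
  · rw [neg_neg]; exact h3.symm

noncomputable def Gf (u : V → ℝ) : ℂ := GG (wt u) (wt (-u))

abbrev Idx : Type := {p : Fin 36 × Fin 36 × Bool × Bool // ¬ (tri p.1 2 = tri p.2.1 2 ∧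
  p.2.2.1 = p.2.2.2)}

def CC (p : Idx) : Set (V → ℝ) := Cell p.1.1 p.1.2.1 p.1.2.2.1 p.1.2.2.2

def ZZ : Set (V → ℝ) := ⋃ p : Idx, CC p

theorem Gf_cont : ContinuousOn Gf ZZ := by
  refine LocallyFinite.continuousOn_iUnion (locallyFinite_of_finite _)
    (fun _ => cell_closed _ _ _ _) fun p => ?_
  obtain ⟨θ, hθ⟩ := cell_lift p.1.1 p.1.2.1 p.1.2.2.1 p.1.2.2.2 p.2
  have hc : Continuous fun u : V → ℝ => EE (wt u) (wt (-u)) θ :=
    EE_continuous wt_cont (wt_cont.comp continuous_neg) wt_nonneg θ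
  refine hc.continuousOn.congr fun u hu => ?_
  exact GG_eq hθ hu.1 hu.2.1 (wt_nonneg _) (wt_nonneg _) hu.2.2

theorem ZZ_closed : IsClosed ZZ := isClosed_iUnion_of_finite fun _ => cell_closed _ _ _ _

theorem ZZ_neg {u : V → ℝ} (h : u ∈ ZZ) : -u ∈ ZZ := by
  obtain ⟨p, hp⟩ := mem_iUnion.1 h
  refine mem_iUnion.2 ⟨⟨(p.1.2.1, p.1.1, p.1.2.2.2, p.1.2.2.1), ?_⟩, cell_neg hp⟩
  intro hh
  exact p.2 ⟨hh.1.symm, hh.2.symm⟩

theorem Gf_neg {u : V → ℝ} (h : u ∈ ZZ) : Gf (-u) = - Gf u := by
  obtain ⟨p, hp⟩ := mem_iUnion.1 h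
  obtain ⟨θ, hθ⟩ := cell_lift p.1.1 p.1.2.1 p.1.2.2.1 p.1.2.2.2 p.2
  obtain ⟨θ', hθ'⟩ := cell_lift p.1.2.1 p.1.1 p.1.2.2.2 p.1.2.2.1
    (fun hh => p.2 ⟨hh.1.symm, hh.2.symm⟩)
  unfold Gf
  rw [neg_neg]
  exact GG_swap hθ hθ' hp.1 hp.2.1 (wt_nonneg _) (wt_nonneg _) hp.2.2

theorem Gf_norm {u : V → ℝ} (h : u ∈ ZZ) : ‖Gf u‖ = ∑ k, wt u k := by
  obtain ⟨p, hp⟩ := mem_iUnion.1 h
  obtain ⟨θ, hθ⟩ := cell_lift p.1.1 p.1.2.1 p.1.2.2.1 p.1.2.2.2 p.2
  unfold Gf
  rw [GG_eq hθ hp.1 hp.2.1 (wt_nonneg _) (wt_nonneg _) hp.2.2]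
  exact EE_norm (Finset.sum_nonneg fun k _ => wt_nonneg _ _)

/-! ## The deleted join -/

def sg (e : Bool) : ℝ := if e then 1 else -1

/-- the two folding coordinates -/
noncomputable def fold (q : ℕ) (u : V → ℝ) : ℝ :=
  ∑ v : V, (if colour v.1 = q then sg v.2 else 0) * u v

/-- points of the (cone over the) deleted join -/
def DK (u : V → ℝ) : Prop := Clq {v | 0 < u v} ∧ Clq {v | u v < 0}

theorem DK.neg {u : V → ℝ} (h : DK u) : DK (-u) := by
  refine ⟨?_, ?_⟩
  · have := h.2
    have e : {v | 0 < (-u) v} = {v | u v < 0} := by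
      ext v; simp
    rwa [e]
  · have := h.1
    have e : {v | (-u) v < 0} = {v | 0 < u v} := by
      ext v; simp
    rwa [e]

theorem mem_ZZ {u : V → ℝ} (h : DK u) (hs : ∑ k, wt u k = ∑ k, wt (-u) k) : u ∈ ZZ := by
  obtain ⟨i, e, hi⟩ := clq_tri h.1
  obtain ⟨j, f, hj⟩ := clq_tri h.2
  have key : ∀ (e f : Bool), ¬ (tri i 2 = tri j 2 ∧ e = f) → (∀ v, 0 < u v → InTri i e v) →
      (∀ v, u v < 0 → InTri j f v) → u ∈ ZZ := by
    intro e f hne h1 h2
    refine mem_iUnion.2 ⟨⟨(i, j, e, f), hne⟩, fun k hk => supp_pos h1 h2 k hk, fun k hk => ?_, hs⟩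
    refine supp_pos (u := -u) (i := j) (j := i) (e := f) (f := e) ?_ ?_ k hk
    · intro v hv
      exact h2 v (by simpa using hv)
    · intro v hv
      exact h1 v (by simpa using hv)
  by_cases hne : tri i 2 = tri j 2 ∧ e = f
  · obtain ⟨h2, rfl⟩ := hne
    have hlt := (tri_fact i).2.2.2.2.2
    by_cases hpos : 0 < u (⟨tri i 2, hlt⟩, e)
    · refine key e (!e) (fun hh => by cases e <;> simp at hh) hi fun v hv => ?_
      rcases hj v hv with a | a | a
      · exact Or.inl a
      · exact Or.inr (Or.inl a)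
      · exfalso
        have : v = (⟨tri i 2, hlt⟩, e) := by
          refine Prod.ext (Fin.ext ?_) a.2
          rw [a.1, ← h2]
        have hv' : u v < 0 := hv
        rw [this] at hv'
        linarith
    · refine key (!e) e (fun hh => by cases e <;> simp at hh) (fun v hv => ?_) hj
      rcases hi v hv with a | a | a
      · exact Or.inl a
      · exact Or.inr (Or.inl a)
      · exfalso
        have : v = (⟨tri i 2, hlt⟩, e) := Prod.ext (Fin.ext a.1) a.2
        have hv' : 0 < u v := hv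
        rw [this] at hv'
        exact hpos hv'
  · exact key e f hne hi hj

theorem clq_uniq {S : Set V} (hS : Clq S) {v w : V} (hv : v ∈ S) (hw : w ∈ S)
    (h : colour v.1 = colour w.1) : v = w := by
  by_contra hne
  exact adj_colour _ _ (hS v hv w hw hne) h

theorem pos_zero {u : V → ℝ} (h : DK u) (h0 : fold 0 u = 0) (h1 : fold 1 u = 0)
    (hw : ∀ k, wt u k = 0) (hw' : ∀ k, wt (-u) k = 0) (v : V) : ¬ 0 < u v := by
  intro hv
  by_cases hc : colour v.1 = 2
  · obtain ⟨k, hk, hkv⟩ := cv_ex v.1 v.2 hc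
    have := wt_single (u := u) hk
    rw [hkv, hw] at this
    have : u v ≤ 0 := this
    linarith
  · set q := colour v.1 with hq
    have hfold : fold q u = 0 := by
      rcases colour_lt v.1 with h' | h' | h'
      · rw [hq, h']; exact h0
      · rw [hq, h']; exact h1
      · exact absurd h' hc
    have hsg : ∀ e, sg e = 1 ∨ sg e = -1 := by
      intro e; cases e
      · right; simp [sg]
      · left; simp [sg]
    by_cases hneg : ∃ w : V, colour w.1 = q ∧ u w < 0
    · obtain ⟨w, hwq, hwn⟩ := hneg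
      have hvw : v ≠ w := by
        rintro rfl; linarith
      unfold fold at hfold
      rw [Finset.sum_eq_add v w hvw (fun x _ hx => ?_) (fun hx => absurd (Finset.mem_univ _) hx)
        (fun hx => absurd (Finset.mem_univ _) hx)] at hfold
      · rw [if_pos rfl, if_pos hwq] at hfold
        have he : v.2 = w.2 := by
          by_contra hne
          have : sg w.2 = - sg v.2 := by
            cases hv2 : v.2 <;> cases hw2 : w.2 <;> simp_all [sg]
          rw [this] at hfold
          rcases hsg v.2 with e1 | e1 <;> rw [e1] at hfold <;> nlinarith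
        have hne1 : v.1 ≠ w.1 := fun hh => hvw (Prod.ext hh he)
        obtain ⟨k, hk | hk⟩ := pair_ex v.1 w.1 hne1 (hwq.symm) hc
        · have hk31 : ((⟨k.1, by omega⟩ : Fin 43) : ℕ) < 31 := k.2
          have := wt_pair (u := u) (k := ⟨k.1, by omega⟩) hk31 v.2
          simp only at this
          rw [hk.1, hk.2, hw] at this
          have a1 : u (v.1, v.2) = u v := rfl
          have a2 : u (w.1, v.2) = u w := by rw [he]
          rw [a1, a2, min_le_iff] at this
          rcases this with h' | h' <;> linarith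
        · have hk31 : ((⟨k.1, by omega⟩ : Fin 43) : ℕ) < 31 := k.2
          have := wt_pair (u := -u) (k := ⟨k.1, by omega⟩) hk31 v.2
          simp only at this
          rw [hk.1, hk.2, hw'] at this
          have a1 : (-u) (v.1, v.2) = - u v := rfl
          have a2 : (-u) (w.1, v.2) = - u w := by rw [he]; rfl
          rw [a1, a2, min_le_iff] at this
          rcases this with h' | h' <;> linarith
      · by_cases hxq : colour x.1 = q
        · have : u x = 0 := by
            rcases lt_trichotomy (u x) 0 with h' | h' | h'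
            · exact absurd (clq_uniq h.2 h' hwn (hxq.trans hwq.symm)) hx.2
            · exact h'
            · exact absurd (clq_uniq h.1 h' hv hxq) hx.1
          rw [this, mul_zero]
        · rw [if_neg hxq, zero_mul]
    · push Not at hneg
      unfold fold at hfold
      rw [Finset.sum_eq_single v (fun x _ hx => ?_) (fun hx => absurd (Finset.mem_univ _) hx)]
        at hfold
      · rw [if_pos rfl] at hfold
        rcases hsg v.2 with e1 | e1 <;> rw [e1] at hfold <;> linarith
      · by_cases hxq : colour x.1 = q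
        · have : u x = 0 := by
            rcases lt_trichotomy (u x) 0 with h' | h' | h'
            · exact absurd h' (not_lt.2 (hneg x hxq))
            · exact h'
            · exact absurd (clq_uniq h.1 h' hv hxq) hx
          rw [this, mul_zero]
        · rw [if_neg hxq, zero_mul]

theorem Gf_ne {u : V → ℝ} (h : DK u) (hu : u ≠ 0) (h0 : fold 0 u = 0) (h1 : fold 1 u = 0)
    (hs : ∑ k, wt u k = ∑ k, wt (-u) k) : Gf u ≠ 0 := by
  intro hG
  have hz := mem_ZZ h hs
  have hn := Gf_norm hz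
  rw [hG, norm_zero] at hn
  have hw : ∀ k, wt u k = 0 := fun k =>
    (Finset.sum_eq_zero_iff_of_nonneg fun k _ => wt_nonneg u k).1 hn.symm k (Finset.mem_univ _)
  have hw' : ∀ k, wt (-u) k = 0 := fun k =>
    (Finset.sum_eq_zero_iff_of_nonneg fun k _ => wt_nonneg (-u) k).1 (hs ▸ hn.symm) k
      (Finset.mem_univ _)
  have f0 : ∀ q, fold q (-u) = - fold q u := by
    intro q
    unfold fold
    rw [← Finset.sum_neg_distrib]
    refine Finset.sum_congr rfl fun v _ => ?_
    simp
  apply hu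
  funext v
  have a1 := pos_zero h h0 h1 hw hw' v
  have a2 := pos_zero (u := -u) h.neg (by rw [f0, h0, neg_zero]) (by rw [f0, h1, neg_zero]) hw'
    (by rw [neg_neg]; exact hw) v
  have a3 : ¬ 0 < - u v := a2
  show u v = 0
  linarith

/-! ## The map -/

theorem exists_G : ∃ G : (V → ℝ) → ℂ, Continuous G ∧ (∀ u, G (-u) = - G u) ∧
    ∀ u ∈ ZZ, G u = Gf u := by
  obtain ⟨E, hE⟩ := ContinuousMap.exists_restrict_eq ZZ_closed
    (⟨fun u : ZZ => Gf u.1, continuousOn_iff_continuous_domRestrict.1 Gf_cont⟩ : C(ZZ, ℂ))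
  have hE' : ∀ u ∈ ZZ, E u = Gf u := by
    intro u hu
    have := congrArg (fun F : C(ZZ, ℂ) => F ⟨u, hu⟩) hE
    exact this
  refine ⟨fun u => (E u - E (-u)) / 2, ?_, ?_, ?_⟩
  · exact (E.continuous.sub (E.continuous.comp continuous_neg)).div_const 2
  · intro u
    simp only [neg_neg]
    ring
  · intro u hu
    simp only
    rw [hE' u hu, hE' _ (ZZ_neg hu), Gf_neg hu]
    ring

/-- **The odd map**: there is a continuous odd map from `ℝ^V` to `ℝ^5` without zeros on the cone
over the deleted join of the octahedralised Moore complex. -/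
theorem z2map : ∃ F : (V → ℝ) → (Fin 5 → ℝ), Continuous F ∧ (∀ u, F (-u) = - F u) ∧
    ∀ u, u ≠ 0 → Clq {v | 0 < u v} → Clq {v | u v < 0} → F u ≠ 0 := by
  obtain ⟨G, hGc, hGn, hG⟩ := exists_G
  have hfc : ∀ q, Continuous (fold q) := by
    intro q
    unfold fold
    exact continuous_finsetSum _ fun v _ => continuous_const.mul (continuous_apply v)
  have hfn : ∀ q u, fold q (-u) = - fold q u := by
    intro q u
    unfold fold
    rw [← Finset.sum_neg_distrib]
    refine Finset.sum_congr rfl fun v _ => ?_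
    simp
  have hsc : Continuous fun u : V → ℝ => ∑ k, wt u k :=
    continuous_finsetSum _ fun k _ => (continuous_apply k).comp wt_cont
  refine ⟨fun u => ![fold 0 u, fold 1 u, (∑ k, wt u k) - ∑ k, wt (-u) k, (G u).re, (G u).im],
    ?_, ?_, ?_⟩
  · refine continuous_pi fun i => ?_
    fin_cases i
    · exact hfc 0
    · exact hfc 1
    · exact hsc.sub (hsc.comp continuous_neg)
    · exact Complex.continuous_re.comp hGc
    · exact Complex.continuous_im.comp hGc
  · intro u
    funext i
    fin_cases i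
    · exact hfn 0 u
    · exact hfn 1 u
    · show (∑ k, wt (-u) k) - ∑ k, wt (- -u) k = -((∑ k, wt u k) - ∑ k, wt (-u) k)
      rw [neg_neg]
      ring
    · show (G (-u)).re = - (G u).re
      rw [hGn, Complex.neg_re]
    · show (G (-u)).im = - (G u).im
      rw [hGn, Complex.neg_im]
  · intro u hu h1 h2 hF
    have e0 : fold 0 u = 0 := congrFun hF 0
    have e1 : fold 1 u = 0 := congrFun hF 1
    have e2 : (∑ k, wt u k) - ∑ k, wt (-u) k = 0 := congrFun hF 2
    have e3 : (G u).re = 0 := congrFun hF 3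
    have e4 : (G u).im = 0 := congrFun hF 4
    have hs : ∑ k, wt u k = ∑ k, wt (-u) k := by linarith
    have hz := mem_ZZ ⟨h1, h2⟩ hs
    refine Gf_ne ⟨h1, h2⟩ hu e0 e1 hs ?_
    rw [← hG u hz]
    exact Complex.ext e3 e4

end Pool.LU.Z2
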