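import Pool.Agent.H85.LU.Lift

/-!
# The odd map on the deleted join of the octahedralised Moore complex
-/

set_option autoImplicit false

open scoped BigOperators

namespace Pool.LU.Z2

abbrev V := Fin 17 × Bool

/-- adjacency in the octahedralisation -/
def OAdj (v w : V) : Prop := adjB v.1 w.1 = true

def hi (k : ℕ) : Fin 17 := ([2, 16, 16, 3, 11, 11, 12, 12, 12, 10, 10, 10, 10, 14, 14, 14, 14, 14,
  13, 13, 13, 13, 13, 13, 1, 1, 1, 1, 1, 1, 1] : List (Fin 17)).getD k 0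

def lo (k : ℕ) : Fin 17 := ([0, 0, 2, 15, 15, 3, 15, 3, 11, 15, 3, 11, 12, 15, 3, 11, 12, 10,
  15, 3, 11, 12, 10, 14, 15, 3, 11, 12, 10, 14, 13] : List (Fin 17)).getD k 0

def cv (k : ℕ) : V := (Fin.ofNat 17 ((k - 23) / 2), (k - 23) % 2 == 1)

/-! ## Finite facts -/

def extCheck : Bool :=
  (List.range 18).all fun x => (List.range 18).all fun y => (List.range 18).all fun z =>
    !((x == 17 || colour x == 0) && (y == 17 || colour y == 1) && (z == 17 || colour z == 2) &&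
      (x == 17 || y == 17 || adjB x y) && (x == 17 || z == 17 || adjB x z) &&
      (y == 17 || z == 17 || adjB y z)) ||
    (List.range 36).any fun i => (x == 17 || tri i 0 == x) && (y == 17 || tri i 1 == y) &&
      (z == 17 || tri i 2 == z)

theorem extCheck_eq : extCheck = true := by decide +kernel

theorem tri_fact : ∀ i : Fin 36, colour (tri i 0) = 0 ∧ colour (tri i 1) = 1 ∧
    colour (tri i 2) = 2 ∧ tri i 0 < 17 ∧ tri i 1 < 17 ∧ tri i 2 < 17 := by decide +kernel

theorem adj_colour : ∀ a b : Fin 17, adjB a b = true → colour a ≠ colour b := by decide +kernel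

theorem colour_lt : ∀ a : Fin 17, colour a = 0 ∨ colour a = 1 ∨ colour a = 2 := by decide +kernel

theorem hilo : ∀ k : Fin 31, colour (hi k) = colour (lo k) ∧
    (colour (hi k) = 0 ∨ colour (hi k) = 1) ∧
    pc (hi k) (lo k) = 2 * k + 1 ∧ hi k ≠ lo k := by decide +kernel

theorem pair_ex : ∀ a b : Fin 17, a ≠ b → colour a = colour b → colour a ≠ 2 →
    ∃ k : Fin 31, (hi k = a ∧ lo k = b) ∨ (hi k = b ∧ lo k = a) := by decide +kernel

theorem cv_fact : ∀ k : Fin 43, 31 ≤ k.1 → colour (cv k).1 = 2 ∧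
    2 * (cv k).1.1 + (cv k).2.toNat + 23 = k := by decide +kernel

theorem cv_ex : ∀ (c : Fin 17) (e : Bool), colour c = 2 → ∃ k : Fin 43, 31 ≤ k.1 ∧
    cv k = (c, e) := by decide +kernel

/-! ## Cliques lie in triangles -/

theorem ext (x y z : ℕ) (hx : x < 18) (hy : y < 18) (hz : z < 18)
    (cx : x = 17 ∨ colour x = 0) (cy : y = 17 ∨ colour y = 1) (cz : z = 17 ∨ colour z = 2)
    (axy : x = 17 ∨ y = 17 ∨ adjB x y = true) (axz : x = 17 ∨ z = 17 ∨ adjB x z = true)
    (ayz : y = 17 ∨ z = 17 ∨ adjB y z = true) :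
    ∃ i : Fin 36, (x = 17 ∨ tri i 0 = x) ∧ (y = 17 ∨ tri i 1 = y) ∧ (z = 17 ∨ tri i 2 = z) := by
  have h := extCheck_eq
  unfold extCheck at h
  rw [List.all_eq_true] at h
  have h1 := h x (List.mem_range.2 hx)
  rw [List.all_eq_true] at h1
  have h2 := h1 y (List.mem_range.2 hy)
  rw [List.all_eq_true] at h2
  have h3 := h2 z (List.mem_range.2 hz)
  rw [Bool.or_eq_true] at h3
  rcases h3 with h3 | h3
  · exfalso
    rw [Bool.not_eq_true', ← Bool.not_eq_true] at h3
    apply h3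
    simp only [Bool.and_eq_true, Bool.or_eq_true, beq_iff_eq]
    tauto
  · rw [List.any_eq_true] at h3
    obtain ⟨i, hi, hi2⟩ := h3
    simp only [Bool.and_eq_true, Bool.or_eq_true, beq_iff_eq] at hi2
    exact ⟨⟨i, List.mem_range.1 hi⟩, hi2.1.1, hi2.1.2, hi2.2⟩

/-- cliques of the octahedralisation -/
def Clq (S : Set V) : Prop := ∀ v ∈ S, ∀ w ∈ S, v ≠ w → OAdj v w

theorem clq_tri {S : Set V} (hS : Clq S) : ∃ (i : Fin 36) (e : Bool), ∀ v ∈ S,
    (v.1 : ℕ) = tri i 0 ∨ (v.1 : ℕ) = tri i 1 ∨ ((v.1 : ℕ) = tri i 2 ∧ v.2 = e) := by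
  classical
  have huniq : ∀ v ∈ S, ∀ w ∈ S, colour v.1 = colour w.1 → v = w := by
    intro v hv w hw h
    by_contra hne
    exact adj_colour _ _ (hS v hv w hw hne) h
  -- choose a vertex of colour q, or 17
  have pick : ∀ q : ℕ, ∃ x : ℕ, x < 18 ∧ (x = 17 ∨ colour x = q) ∧
      (x = 17 ∨ ∃ v ∈ S, (v.1 : ℕ) = x) ∧ (∀ v ∈ S, colour v.1 = q → (v.1 : ℕ) = x) := by
    intro q
    by_cases h : ∃ v ∈ S, colour v.1 = q
    · obtain ⟨v, hv, hq⟩ := h
      refine ⟨v.1, by omega, Or.inr hq, Or.inr ⟨v, hv, rfl⟩, fun w hw hwq => ?_⟩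
      rw [huniq w hw v hv (hwq.trans hq.symm)]
    · refine ⟨17, by norm_num, Or.inl rfl, Or.inl rfl, fun w hw hwq => ?_⟩
      exact absurd ⟨w, hw, hwq⟩ h
  obtain ⟨x, hx, cx, sx, ux⟩ := pick 0
  obtain ⟨y, hy, cy, sy, uy⟩ := pick 1
  obtain ⟨z, hz, cz, sz, uz⟩ := pick 2
  have adj : ∀ (a b p q : ℕ), p ≠ q → (a = 17 ∨ colour a = p) → (b = 17 ∨ colour b = q) →
      (a = 17 ∨ ∃ v ∈ S, (v.1 : ℕ) = a) → (b = 17 ∨ ∃ v ∈ S, (v.1 : ℕ) = b) →
      (a = 17 ∨ b = 17 ∨ adjB a b = true) := by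
    intro a b p q hpq ha hb sa sb
    rcases sa with sa | ⟨v, hv, hva⟩
    · exact Or.inl sa
    rcases sb with sb | ⟨w, hw, hwb⟩
    · exact Or.inr (Or.inl sb)
    rcases ha with ha | ha
    · exact Or.inl ha
    rcases hb with hb | hb
    · exact Or.inr (Or.inl hb)
    right; right
    have hne : v ≠ w := by
      rintro rfl
      rw [hva] at hwb
      rw [hwb] at ha
      exact hpq (ha.symm.trans hb)
    have := hS v hv w hw hne
    unfold OAdj at this
    rwa [hva, hwb] at this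
  obtain ⟨i, h0, h1, h2⟩ := ext x y z hx hy hz cx cy cz
    (adj x y 0 1 (by norm_num) cx cy sx sy) (adj x z 0 2 (by norm_num) cx cz sx sz)
    (adj y z 1 2 (by norm_num) cy cz sy sz)
  have lt17 : ∀ v ∈ S, (v.1 : ℕ) ≠ 17 := fun v _ => by have := v.1.2; omega
  by_cases he : ∃ v ∈ S, colour v.1 = 2
  · obtain ⟨v2, hv2, hq2⟩ := he
    refine ⟨i, v2.2, fun v hv => ?_⟩
    rcases colour_lt v.1 with h | h | h
    · left
      have e := ux v hv h
      rcases h0 with h0 | h0
      · exact absurd (e.trans h0) (lt17 v hv)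
      · rw [e, h0]
    · right; left
      have e := uy v hv h
      rcases h1 with h1 | h1
      · exact absurd (e.trans h1) (lt17 v hv)
      · rw [e, h1]
    · right; right
      have e := uz v hv h
      have e2 := huniq v hv v2 hv2 (h.trans hq2.symm)
      rcases h2 with h2 | h2
      · exact absurd (e.trans h2) (lt17 v hv)
      · exact ⟨by rw [e, h2], by rw [e2]⟩
  · refine ⟨i, true, fun v hv => ?_⟩
    rcases colour_lt v.1 with h | h | h
    · left
      have e := ux v hv h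
      rcases h0 with h0 | h0
      · exact absurd (e.trans h0) (lt17 v hv)
      · rw [e, h0]
    · right; left
      have e := uy v hv h
      rcases h1 with h1 | h1
      · exact absurd (e.trans h1) (lt17 v hv)
      · rw [e, h1]
    · exact absurd ⟨v, hv, h⟩ he

end Pool.LU.Z2
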